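import Pool.Agent.H71.AL.Targets

/-!
# MP_5607ba_lc, row CMP: a component which meets the set of points in good intervals is
contained in it
-/

set_option autoImplicit false

namespace Pool.Agent.H55.ALV

open Set
open Pool.Agent.AL

/-- `z` is between `x` and `t` -/
def Bt {L : Type} [LinearOrder L] (x t z : L) : Prop := (x ≤ z ∧ z ≤ t) ∨ (t ≤ z ∧ z ≤ x)

theorem Bt.split {L : Type} [LinearOrder L] {x t z : L} (h : Bt x t z) (y : L) :
    Bt x y z ∨ Bt y t z := by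
  rcases le_total z y with h1 | h1
  · rcases h with ⟨h2, h3⟩ | ⟨h2, h3⟩
    · exact Or.inl (Or.inl ⟨h2, h1⟩)
    · exact Or.inr (Or.inr ⟨h2, h1⟩)
  · rcases h with ⟨h2, h3⟩ | ⟨h2, h3⟩
    · exact Or.inr (Or.inl ⟨h1, h3⟩)
    · exact Or.inl (Or.inr ⟨h1, h3⟩)

theorem cmp_core {L ι : Type} [ConditionallyCompleteLinearOrder L] [DenselyOrdered L] (G : ι → L → L) (W : L → Prop)
    (h1 : ∀ x, W x → ∃ p q, p < x ∧ x < q ∧ ∀ t, p < t → t < q → W t)
    (h2 : ∀ i x, W x → W (G i x))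
    (h3 : ∀ i, StrictMono (G i) ∨ StrictAnti (G i))
    (h4 : ∀ i, ∃ j, (∀ x, G j (G i x) = x) ∧ ∀ x, G i (G j x) = x)
    (h5 : ∀ i x y, (∀ z, Bt x y z → W z) → (G i x = x → G i y = y) ∧ (x < G i x → y < G i y) ∧
      ((∀ z, Bt x (G i x) z → W z) → StrictMono (G i)))
    (x y : L) (hxy : x < y) (hx : W x) (hy : ¬ W y) :
    ∃ r, x < r ∧ r ≤ y ∧ ¬ W r ∧
      ((∃ i, StrictMono (G i) ∧ (∀ n : ℕ, (G i)^[n] x < r) ∧
        ∀ z, z < r → ∃ n : ℕ, z < (G i)^[n] x) ∨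
      ∃ p, p < x ∧ ∀ i, (∀ t, p < t → t < r → ¬ (p < G i t ∧ G i t < r)) ∨
        ∀ t, p < t → t < r → G i t = t) := by
  -- the supremum
  let S : Set L := {t | x ≤ t ∧ t ≤ y ∧ ∀ s, x ≤ s → s ≤ t → W s}
  have hxS : x ∈ S := ⟨le_rfl, hxy.le, fun s h h' => by rwa [le_antisymm h' h]⟩
  have hSb : BddAbove S := ⟨y, fun t ht => ht.2.1⟩
  let r := sSup S
  have hxr0 : x ≤ r := le_csSup hSb hxS
  have hry : r ≤ y := csSup_le ⟨x, hxS⟩ fun t ht => ht.2.1
  have hlt : ∀ t, x ≤ t → t < r → W t := by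
    intro t ht1 ht2
    obtain ⟨s, hs, hts⟩ := exists_lt_of_lt_csSup ⟨x, hxS⟩ ht2
    exact hs.2.2 t ht1 hts.le
  have hr : ¬ W r := by
    intro hr
    rcases eq_or_lt_of_le hry with h | h
    · exact hy (h ▸ hr)
    obtain ⟨p, q, hp, hq, hpq⟩ := h1 r hr
    -- all points of [x, r] and of (r, q) are in W
    have hq' : ∀ s, x ≤ s → s < q → W s := by
      intro s hs hsq
      rcases lt_or_ge s r with h' | h'
      · exact hlt s hs h'
      · exact hpq s (lt_of_lt_of_le hp h') hsq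
    by_cases hqy : y < q
    · exact hy (hq' y hxy.le hqy)
    rw [not_lt] at hqy
    obtain ⟨s, hs1, hs2⟩ := exists_between hq
    have : s ∈ S := ⟨hxr0.trans hs1.le, hs2.le.trans hqy, fun t ht ht' =>
      hq' t ht (ht'.trans_lt hs2)⟩
    exact absurd (le_csSup hSb this) (not_le.2 hs1)
  have hxr : x < r := lt_of_le_of_ne hxr0 fun h => hr (h ▸ hx)
  refine ⟨r, hxr, hry, hr, ?_⟩
  obtain ⟨p0, q0, hp0, hq0, hpq0⟩ := h1 x hx
  have V1 : ∀ t, p0 < t → t < r → ∀ z, Bt x t z → W z := by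
    rintro t ht1 ht2 z (⟨h, h'⟩ | ⟨h, h'⟩)
    · exact hlt z h (h'.trans_lt ht2)
    · exact hpq0 z (ht1.trans_le h) (h'.trans_lt hq0)
  have V2 : ∀ t, (∀ z, Bt x t z → W z) → t < r := by
    intro t ht
    by_contra h
    exact hr (ht r (Or.inl ⟨hxr0, not_lt.1 h⟩))
  have V3 : ∀ i t u, (∀ z, Bt t u z → W z) → ∀ z, Bt (G i t) (G i u) z → W z := by
    intro i t u ht z hz
    obtain ⟨j, hj1, hj2⟩ := h4 i
    rw [← hj2 z] at hz ⊢
    apply h2
    apply ht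
    rcases h3 i with h | h
    · simpa only [Bt, h.le_iff_le] using hz
    · have : Bt (G i t) (G i u) (G i (G j z)) := hz
      simp only [Bt, h.le_iff_ge] at this
      rcases this with ⟨h5, h6⟩ | ⟨h5, h6⟩
      · exact Or.inr ⟨h6, h5⟩
      · exact Or.inl ⟨h6, h5⟩
  have Bsymm : ∀ a b z : L, Bt a b z → Bt b a z := by
    rintro a b z (h | h)
    · exact Or.inr h
    · exact Or.inl h
  have Vx : ∀ z, Bt x x z → W z := V1 x hp0 hxr
  by_cases hc : ∀ i, (∀ z, Bt x (G i x) z → W z) → G i x = x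
  · right
    refine ⟨p0, hp0, fun i => ?_⟩
    by_cases he : ∃ t, (p0 < t ∧ t < r) ∧ p0 < G i t ∧ G i t < r
    · right
      obtain ⟨t, ⟨ht1, ht2⟩, ht3, ht4⟩ := he
      have hV : ∀ z, Bt x (G i x) z → W z := by
        intro z hz
        rcases hz.split (G i t) with h | h
        · exact V1 _ ht3 ht4 z h
        · exact V3 i x t (V1 t ht1 ht2) z (Bsymm _ _ _ h)
      intro u hu1 hu2
      exact (h5 i x u (V1 u hu1 hu2)).1 (hc i hV)
    · left
      intro t ht1 ht2 ht3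
      exact he ⟨t, ⟨ht1, ht2⟩, ht3⟩
  · left
    push Not at hc
    obtain ⟨i0, hi0, hne⟩ := hc
    have hB : ∃ i, StrictMono (G i) ∧ x < G i x ∧ ∀ z, Bt x (G i x) z → W z := by
      have hm := (h5 i0 x x Vx).2.2 hi0
      rcases lt_or_gt_of_ne hne with h | h
      · obtain ⟨j, hj1, hj2⟩ := h4 i0
        have hVj : ∀ z, Bt x (G j x) z → W z := by
          intro z hz
          have := V3 j x (G i0 x) hi0 z
          rw [hj1] at this
          exact this (Bsymm _ _ _ hz)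
        have hmj := (h5 j x x Vx).2.2 hVj
        refine ⟨j, hmj, ?_, hVj⟩
        have := hmj h
        rwa [hj1] at this
      · exact ⟨i0, hm, h, hi0⟩
    obtain ⟨i, hi, hxi, hVi⟩ := hB
    refine ⟨i, hi, ?_, ?_⟩
    · intro n
      apply V2
      induction n with
      | zero => exact Vx
      | succ n ih =>
        intro z hz
        rw [Function.iterate_succ_apply'] at hz
        rcases hz.split (G i x) with h | h
        · exact hVi z h
        · exact V3 i _ _ ih z h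
    · intro z hz
      by_contra hn
      push Not at hn
      have hbd : BddAbove (range fun n : ℕ => (G i)^[n] x) := ⟨z, by
        rintro _ ⟨n, rfl⟩
        exact hn n⟩
      let s := sSup (range fun n : ℕ => (G i)^[n] x)
      have hxs : x ≤ s := le_csSup hbd ⟨0, rfl⟩
      have hsz : s ≤ z := csSup_le ⟨x, ⟨0, rfl⟩⟩ (by
        rintro _ ⟨n, rfl⟩
        exact hn n)
      have hs : s < G i s :=
        (h5 i x s (V1 s (hp0.trans_le hxs) (hsz.trans_lt hz))).2.1 hxi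
      obtain ⟨j, hj1, hj2⟩ := h4 i
      have hjs : G j s < s := by
        rw [← hi.lt_iff_lt, hj2]
        exact hs
      obtain ⟨_, ⟨n, rfl⟩, hn'⟩ := exists_lt_of_lt_csSup (range_nonempty _) hjs
      have h6 := hi hn'
      rw [hj2] at h6
      have h7 : (G i)^[n + 1] x ≤ s := le_csSup hbd ⟨n + 1, rfl⟩
      rw [Function.iterate_succ_apply'] at h7
      exact absurd h6 (not_lt.2 h7)

theorem pf_CMP (hI : T_INV) (hE : T_ESW) (hF : T_FRE) : T_CMP := by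
  intro ι G hG x y hx hxy
  by_contra hy
  obtain ⟨-, -, hE3⟩ := hE ι G hG
  have h1 : ∀ x, Ws rl G x → ∃ p q, p < x ∧ x < q ∧ ∀ t, p < t → t < q → Ws rl G t := by
    rintro x ⟨p, q, hpq, hp, hq⟩
    exact ⟨p, q, hp, hq, fun t ht ht' => ⟨p, q, hpq, ht, ht'⟩⟩
  have h2 : ∀ i x, Ws rl G x → Ws rl G (G i x) := fun i x h => (hI ι G hG i).1 x h
  have h5 : ∀ i x y, (∀ z, (x ≤ z ∧ z ≤ y) ∨ (y ≤ z ∧ z ≤ x) → Ws rl G z) →
      (G i x = x → G i y = y) ∧ (x < G i x → y < G i y) ∧ (G i x < x → G i y < y) ∧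
      ((∀ z, (x ≤ z ∧ z ≤ G i x) ∨ (G i x ≤ z ∧ z ≤ x) → Ws rl G z) → Inc rl (G i)) := by
    intro i x y h
    have hSC : SC G x y := fun z hz hz' => hE3 z hz' (h z (mem_uIcc.1 hz))
    obtain ⟨ha, hb, hc, hd⟩ := hF ι G hG x y hSC i
    exact ⟨ha, hb, hc, fun h' => hd fun z hz hz' => hE3 z hz' (h' z (mem_uIcc.1 hz))⟩
  have hEs : ∀ r, (x ≤ r ∧ r ≤ y) ∨ (y ≤ r ∧ r ≤ x) → ¬ Es rl G r := fun r hr h =>
    hxy r (mem_uIcc.2 hr) (subset_closure h)
  rcases lt_trichotomy x y with hlt | heq | hlt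
  · obtain ⟨r, hxr, hry, hr, h⟩ := cmp_core G (Ws rl G) h1 h2
      (fun i => (hG.mono i).imp (fun h a b hab => h a b hab) (fun h a b hab => h a b hab))
      hG.inv (fun i x y h => ⟨(h5 i x y h).1, (h5 i x y h).2.1,
        fun h' a b hab => (h5 i x y h).2.2.2 h' a b hab⟩) x y hlt hx hy
    apply hEs r (Or.inl ⟨hxr.le, hry⟩)
    rcases h with ⟨i, hi, hi1, hi2⟩ | ⟨p, hp, hpi⟩
    · exact Or.inl (Or.inl ⟨i, x, fun a b hab => hi hab, Or.inl ⟨hxr, hi1, hi2⟩⟩)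
    · refine Or.inr ⟨hr, x, Or.inl ⟨hxr, fun z hz hz' => ⟨p, r, ⟨hp.trans hxr, hpi⟩,
        ⟨hp, hxr⟩, hp.trans hz, hz'⟩⟩⟩
  · exact hy (heq ▸ hx)
  · let G' : ι → ℝᵒᵈ → ℝᵒᵈ := fun i t => OrderDual.toDual (G i (OrderDual.ofDual t))
    have hBt : ∀ a b z : ℝᵒᵈ, Bt a b z ↔
        ((OrderDual.ofDual a ≤ OrderDual.ofDual z ∧ OrderDual.ofDual z ≤ OrderDual.ofDual b) ∨
        (OrderDual.ofDual b ≤ OrderDual.ofDual z ∧ OrderDual.ofDual z ≤ OrderDual.ofDual a)) := by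
      intro a b z
      constructor
      · rintro (⟨h, h'⟩ | ⟨h, h'⟩)
        · exact Or.inr ⟨h', h⟩
        · exact Or.inl ⟨h', h⟩
      · rintro (⟨h, h'⟩ | ⟨h, h'⟩)
        · exact Or.inr ⟨h', h⟩
        · exact Or.inl ⟨h', h⟩
    obtain ⟨r, hxr, hry, hr, h⟩ := cmp_core G' (fun t => Ws rl G (OrderDual.ofDual t))
      (fun x hx => by
        obtain ⟨p, q, hp, hq, hpq⟩ := h1 _ hx
        exact ⟨OrderDual.toDual q, OrderDual.toDual p, hq, hp, fun t ht ht' => hpq _ ht' ht⟩)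
      (fun i x hx => h2 i _ hx)
      (fun i => (hG.mono i).imp (fun h a b hab => h _ _ hab) (fun h a b hab => h _ _ hab))
      hG.inv (fun i x y h => by
        have h' := h5 i (OrderDual.ofDual x) (OrderDual.ofDual y)
          (fun z hz => h (OrderDual.toDual z) ((hBt _ _ _).2 hz))
        exact ⟨h'.1, h'.2.2.1, fun h'' a b hab => h'.2.2.2
          (fun z hz => h'' (OrderDual.toDual z) ((hBt _ _ _).2 hz)) _ _ hab⟩)
      (OrderDual.toDual x) (OrderDual.toDual y) hlt hx hy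
    apply hEs (OrderDual.ofDual r) (Or.inr ⟨hry, le_of_lt hxr⟩)
    rcases h with ⟨i, hi, hi1, hi2⟩ | ⟨p, hp, hpi⟩
    · exact Or.inl (Or.inl ⟨i, x, fun a b hab => hi hab, Or.inr ⟨hxr, hi1, hi2⟩⟩)
    · refine Or.inr ⟨hr, x, Or.inr ⟨hxr, fun z hz hz' => ⟨OrderDual.ofDual r,
        OrderDual.ofDual p, ⟨lt_trans hxr hp, fun i => ?_⟩, ⟨hxr, hp⟩, hz, lt_trans hz' hp⟩⟩⟩
      rcases hpi i with h | h
      · exact Or.inl fun t ht ht' ht'' => h (OrderDual.toDual t) ht' ht ⟨ht''.2, ht''.1⟩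
      · exact Or.inr fun t ht ht' => h (OrderDual.toDual t) ht' ht

end Pool.Agent.H55.ALV
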